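import Pool.Agent.J4H12.PZ.Stm

/-!
# Project PZ: (HH)
-/

set_option autoImplicit false

open Filter Topology Set

namespace Pool.Agent.J4H22.PZ

open Pool.Agent.J4H12.PZ

/-- the first part, for one `p` -/
theorem hh1 (F a b Z c₀ C₁ t : ℝ) (hZ : 0 < Z) (hc : 0 < c₀) (hC : 0 ≤ C₁) (hF : c₀ ≤ F)
    (ht0 : 0 < t) (ht1 : t ≤ 1) (ht : 4 * C₁ * t ≤ c₀)
    (hab : |a + b| ≤ 2 * C₁ * t ^ 2) (ha : |a| ≤ 2 * C₁ * t) (hb : |b| ≤ 2 * C₁ * t) :
    |Z / (F + a) + Z / (F + b) - 2 * (Z / F)| ≤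
      Z * (2 * C₁ / c₀ ^ 2 + 16 * C₁ ^ 2 / c₀ ^ 3) * t ^ 2 := by
  have hFpos : 0 < F := lt_of_lt_of_le hc hF
  have ha2 : -(c₀ / 2) ≤ a := by
    have := neg_le_of_abs_le ha
    linarith
  have hb2 : -(c₀ / 2) ≤ b := by
    have := neg_le_of_abs_le hb
    linarith
  have hFa : c₀ / 2 ≤ F + a := by linarith
  have hFb : c₀ / 2 ≤ F + b := by linarith
  have hFa0 : 0 < F + a := by linarith
  have hFb0 : 0 < F + b := by linarith
  have e : Z / (F + a) + Z / (F + b) - 2 * (Z / F) =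
      Z * (-((a + b) / F ^ 2) + a ^ 2 / (F ^ 2 * (F + a)) + b ^ 2 / (F ^ 2 * (F + b))) := by
    field_simp
    ring
  have hF2 : c₀ ^ 2 ≤ F ^ 2 := pow_le_pow_left₀ hc.le hF 2
  have hsq : ∀ x : ℝ, |x| ≤ 2 * C₁ * t → c₀ / 2 ≤ F + x →
      |x ^ 2 / (F ^ 2 * (F + x))| ≤ 8 * C₁ ^ 2 / c₀ ^ 3 * t ^ 2 := by
    intro x hx hFx
    have hFx0 : 0 < F + x := by linarith
    rw [abs_of_nonneg (by positivity)]
    have h1 : x ^ 2 ≤ 4 * C₁ ^ 2 * t ^ 2 := by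
      have := pow_le_pow_left₀ (abs_nonneg x) hx 2
      rw [sq_abs] at this
      nlinarith [this]
    have h2 : c₀ ^ 2 * (c₀ / 2) ≤ F ^ 2 * (F + x) :=
      mul_le_mul hF2 hFx (by positivity) (by positivity)
    calc x ^ 2 / (F ^ 2 * (F + x)) ≤ 4 * C₁ ^ 2 * t ^ 2 / (c₀ ^ 2 * (c₀ / 2)) := by
          apply div_le_div₀ (by positivity) h1 (by positivity) h2
      _ = 8 * C₁ ^ 2 / c₀ ^ 3 * t ^ 2 := by field_simp; ring
  have h3 : |(a + b) / F ^ 2| ≤ 2 * C₁ / c₀ ^ 2 * t ^ 2 := by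
    rw [abs_div, abs_of_pos (by positivity : 0 < F ^ 2)]
    calc |a + b| / F ^ 2 ≤ 2 * C₁ * t ^ 2 / c₀ ^ 2 :=
          div_le_div₀ (by positivity) hab (by positivity) hF2
      _ = 2 * C₁ / c₀ ^ 2 * t ^ 2 := by ring
  rw [e, abs_mul, abs_of_pos hZ]
  calc Z * |-((a + b) / F ^ 2) + a ^ 2 / (F ^ 2 * (F + a)) + b ^ 2 / (F ^ 2 * (F + b))|
      ≤ Z * (|(a + b) / F ^ 2| + |a ^ 2 / (F ^ 2 * (F + a))| + |b ^ 2 / (F ^ 2 * (F + b))|) := by
        apply mul_le_mul_of_nonneg_left _ hZ.le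
        refine (abs_add_le _ _).trans (add_le_add ((abs_add_le _ _).trans ?_) le_rfl)
        rw [abs_neg]
    _ ≤ Z * (2 * C₁ / c₀ ^ 2 * t ^ 2 + 8 * C₁ ^ 2 / c₀ ^ 3 * t ^ 2 + 8 * C₁ ^ 2 / c₀ ^ 3 * t ^ 2) := by
        apply mul_le_mul_of_nonneg_left _ hZ.le
        exact add_le_add (add_le_add h3 (hsq a ha hFa)) (hsq b hb hFb)
    _ = Z * (2 * C₁ / c₀ ^ 2 + 16 * C₁ ^ 2 / c₀ ^ 3) * t ^ 2 := by ring

/-- the second part, for one `p` -/
theorem hh2 (f : ℝ → ℝ) (Z J β γ₁ γ₂ : ℝ) (hpos : ∀ t, 0 < f t)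
    (h1 : Tendsto (fun t : ℝ => t⁻¹ ^ 2 * (f t - f 0 - β * t)) (𝓝[>] 0) (𝓝 γ₁))
    (h2 : Tendsto (fun t : ℝ => t⁻¹ ^ 2 * (f t - f 0 - β * t)) (𝓝[<] 0) (𝓝 γ₂))
    (hJ : (γ₂ - γ₁) / 2 = J)
    (β' C' δ' : ℝ) (hδ : 0 < δ')
    (hb : ∀ t : ℝ, 0 < t → t ≤ δ' → |β' * t - (Z / f t - Z / f (-t)) / 2| ≤ C' * t ^ 2) :
    Tendsto (fun t : ℝ => t⁻¹ ^ 2 * (β' * t - (Z / f t - Z / f (-t)) / 2)) (𝓝[>] 0)
      (𝓝 (-(Z * J / f 0 ^ 2))) := by
  set F := f 0 with hF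
  have hF0 : 0 < F := hpos 0
  set u : ℝ → ℝ := fun t => t⁻¹ ^ 2 * (f t - F - β * t) with hu
  set v : ℝ → ℝ := fun t => t⁻¹ ^ 2 * (f (-t) - F + β * t) with hv
  have hneg : Tendsto (fun t : ℝ => -t) (𝓝[>] 0) (𝓝[<] 0) := by
    have := tendsto_neg_nhdsGT (a := (0 : ℝ))
    simpa using this
  have hv' : Tendsto v (𝓝[>] 0) (𝓝 γ₂) := by
    refine (h2.comp hneg).congr fun t => ?_
    simp only [Function.comp, hv, inv_neg]
    ring
  have hid : Tendsto (fun t : ℝ => t) (𝓝[>] 0) (𝓝 0) := tendsto_id.mono_left nhdsWithin_le_nhds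
  have hfu : ∀ t : ℝ, 0 < t → f t = F + β * t + t ^ 2 * u t := by
    intro t ht
    simp only [hu]
    field_simp
    ring
  have hfv : ∀ t : ℝ, 0 < t → f (-t) = F - β * t + t ^ 2 * v t := by
    intro t ht
    simp only [hv]
    field_simp
    ring
  have hevt : ∀ᶠ t : ℝ in 𝓝[>] 0, 0 < t := eventually_mem_nhdsWithin
  have hft : Tendsto f (𝓝[>] 0) (𝓝 F) := by
    have e1 : Tendsto (fun t => F + β * t + t ^ 2 * u t) (𝓝[>] 0) (𝓝 (F + β * 0 + 0 ^ 2 * γ₁)) :=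
      (tendsto_const_nhds.add (tendsto_const_nhds.mul hid)).add ((hid.pow 2).mul h1)
    have e2 : F + β * 0 + 0 ^ 2 * γ₁ = F := by ring
    rw [e2] at e1
    exact e1.congr' (hevt.mono fun t ht => (hfu t ht).symm)
  have hfn : Tendsto (fun t => f (-t)) (𝓝[>] 0) (𝓝 F) := by
    have e1 : Tendsto (fun t => F - β * t + t ^ 2 * v t) (𝓝[>] 0) (𝓝 (F - β * 0 + 0 ^ 2 * γ₂)) :=
      (tendsto_const_nhds.sub (tendsto_const_nhds.mul hid)).add ((hid.pow 2).mul hv')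
    have e2 : F - β * 0 + 0 ^ 2 * γ₂ = F := by ring
    rw [e2] at e1
    exact e1.congr' (hevt.mono fun t ht => (hfv t ht).symm)
  have hprod : Tendsto (fun t => f t * f (-t)) (𝓝[>] 0) (𝓝 (F * F)) := hft.mul hfn
  have hFF : F * F ≠ 0 := by positivity
  -- the value of `β'`
  have hβ : β' = -(Z * β / (F * F)) := by
    have e1 : Tendsto (fun t => |β' + Z * β / (f t * f (-t)) -
        Z / 2 * t * (v t - u t) / (f t * f (-t))|) (𝓝[>] 0)
        (𝓝 |β' + Z * β / (F * F) - Z / 2 * 0 * (γ₂ - γ₁) / (F * F)|) := by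
      apply Tendsto.abs
      apply Tendsto.sub
      · exact tendsto_const_nhds.add (tendsto_const_nhds.div hprod hFF)
      · exact (((tendsto_const_nhds.mul hid).mul (hv'.sub h1)).div hprod hFF)
    have e2 : Tendsto (fun t : ℝ => C' * t) (𝓝[>] 0) (𝓝 (C' * 0)) := tendsto_const_nhds.mul hid
    have e3 : ∀ᶠ t : ℝ in 𝓝[>] 0, t ≤ δ' := by
      have : Iic δ' ∈ 𝓝 (0 : ℝ) := Iic_mem_nhds hδ
      exact (mem_nhdsWithin_of_mem_nhds this)
    have e4 := le_of_tendsto_of_tendsto e1 e2 (by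
      filter_upwards [hevt, e3] with t ht ht'
      have g1 := hb t ht ht'
      have p1 := hpos t
      have p2 := hpos (-t)
      have g2 : β' * t - (Z / f t - Z / f (-t)) / 2 =
          t * (β' + Z * β / (f t * f (-t)) - Z / 2 * t * (v t - u t) / (f t * f (-t))) := by
        have k1 : Z / f t - Z / f (-t) = Z * (f (-t) - f t) / (f t * f (-t)) := by
          field_simp
        have k2 : f (-t) - f t = -2 * β * t + t ^ 2 * (v t - u t) := by
          rw [hfu t ht, hfv t ht]; ring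
        rw [k1, k2]
        field_simp
        ring
      rw [g2, abs_mul, abs_of_pos ht] at g1
      have g3 : t * |β' + Z * β / (f t * f (-t)) - Z / 2 * t * (v t - u t) / (f t * f (-t))| ≤
          t * (C' * t) := by
        calc _ ≤ C' * t ^ 2 := g1
          _ = t * (C' * t) := by ring
      exact le_of_mul_le_mul_left g3 ht)
    have e5 : |β' + Z * β / (F * F) - Z / 2 * 0 * (γ₂ - γ₁) / (F * F)| ≤ 0 := by
      simpa using e4
    have e6 := abs_nonpos_iff.1 e5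
    have e7 : Z / 2 * 0 * (γ₂ - γ₁) / (F * F) = 0 := by ring
    rw [e7] at e6
    linarith
  -- the limit
  have hE : Tendsto (fun t => Z * β / (F * F * (f t * f (-t))) *
      (-(t * (F * (u t + v t) - β ^ 2)) - β * t ^ 2 * (v t - u t) - t ^ 3 * (u t * v t)) -
      Z / 2 * (v t - u t) / (f t * f (-t))) (𝓝[>] 0)
      (𝓝 (Z * β / (F * F * (F * F)) *
      (-(0 * (F * (γ₁ + γ₂) - β ^ 2)) - β * 0 ^ 2 * (γ₂ - γ₁) - 0 ^ 3 * (γ₁ * γ₂)) -
      Z / 2 * (γ₂ - γ₁) / (F * F))) := by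
    apply Tendsto.sub
    · apply Tendsto.mul
      · exact tendsto_const_nhds.div (tendsto_const_nhds.mul hprod) (by positivity)
      · apply Tendsto.sub
        · apply Tendsto.sub
          · exact (hid.mul ((tendsto_const_nhds.mul (h1.add hv')).sub tendsto_const_nhds)).neg
          · exact (tendsto_const_nhds.mul (hid.pow 2)).mul (hv'.sub h1)
        · exact (hid.pow 3).mul (h1.mul hv')
    · exact (tendsto_const_nhds.mul (hv'.sub h1)).div hprod hFF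
  have hlim : Z * β / (F * F * (F * F)) *
      (-(0 * (F * (γ₁ + γ₂) - β ^ 2)) - β * 0 ^ 2 * (γ₂ - γ₁) - 0 ^ 3 * (γ₁ * γ₂)) -
      Z / 2 * (γ₂ - γ₁) / (F * F) = -(Z * J / F ^ 2) := by
    rw [← hJ]
    field_simp
    ring
  rw [hlim] at hE
  refine hE.congr' (hevt.mono fun t ht => ?_)
  beta_reduce
  have p1 := hpos t
  have p2 := hpos (-t)
  have k1 : Z / f t - Z / f (-t) = Z * (f (-t) - f t) / (f t * f (-t)) := by
    field_simp
  have k2 : f (-t) - f t = -2 * β * t + t ^ 2 * (v t - u t) := by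
    rw [hfu t ht, hfv t ht]; ring
  have k3 : -(t * (F * (u t + v t) - β ^ 2)) - β * t ^ 2 * (v t - u t) - t ^ 3 * (u t * v t) =
      (F * F - f t * f (-t)) / t := by
    rw [hfu t ht, hfv t ht]
    field_simp
    ring
  rw [k3, k1, k2, hβ]
  field_simp
  ring

theorem t_HH : S_HH := by
  intro f Z J hZ hpos hb hE hU
  refine ⟨?_, ?_⟩
  · intro T hT h0 h1
    obtain ⟨C₀, δ₀, hδ, hT'⟩ := hU T hT h0 h1
    obtain ⟨R, hR⟩ := hT.isBounded.subset_closedBall 0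
    obtain ⟨c₀, C₂, hc, hcF⟩ := hb R
    set C₁ : ℝ := |C₀| with hC₁
    have hC₁0 : 0 ≤ C₁ := abs_nonneg _
    refine ⟨Z * (2 * C₁ / c₀ ^ 2 + 16 * C₁ ^ 2 / c₀ ^ 3), min δ₀ (min 1 (c₀ / (4 * (C₁ + 1)))),
      lt_min hδ (lt_min one_pos (by positivity)), ?_⟩
    intro p hp t ht0 ht
    have htδ : t ≤ δ₀ := ht.trans (min_le_left _ _)
    have ht1 : t ≤ 1 := ht.trans ((min_le_right _ _).trans (min_le_left _ _))
    have ht2 : t ≤ c₀ / (4 * (C₁ + 1)) := ht.trans ((min_le_right _ _).trans (min_le_right _ _))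
    have ht3 : 4 * C₁ * t ≤ c₀ := by
      rw [le_div_iff₀ (by positivity)] at ht2
      nlinarith
    have hpR : |p| ≤ R := by
      have := hR hp
      simpa [Real.norm_eq_abs] using this
    obtain ⟨β, hβ, hβt⟩ := hT' p hp
    have hC₀ : C₀ = C₁ := by
      rw [hC₁, abs_of_nonneg ((abs_nonneg β).trans hβ)]
    have a1 := hβt t (by rw [abs_of_pos ht0]; exact htδ)
    have a2 := hβt (-t) (by rw [abs_neg, abs_of_pos ht0]; exact htδ)
    rw [hC₀] at a1 a2 hβ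
    rw [neg_sq] at a2
    have ha := abs_le.1 a1
    have hb' := abs_le.1 a2
    have hβ' := abs_le.1 hβ
    have htt : t ^ 2 ≤ t := by nlinarith
    have hCt : C₁ * t ^ 2 ≤ C₁ * t := mul_le_mul_of_nonneg_left htt hC₁0
    have hβt1 : β * t ≤ C₁ * t := mul_le_mul_of_nonneg_right hβ'.2 ht0.le
    have hβt2 : -(C₁ * t) ≤ β * t := by
      have := mul_le_mul_of_nonneg_right hβ'.1 ht0.le
      linarith
    have key := hh1 (f p 0) (f p t - f p 0) (f p (-t) - f p 0) Z c₀ C₁ t hZ hc hC₁0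
      (hcF p hpR).1 ht0 ht1 ht3 (by rw [abs_le]; constructor <;> linarith [ha.1, ha.2, hb'.1, hb'.2])
      (by rw [abs_le]; constructor <;> linarith [ha.1, ha.2])
      (by rw [abs_le]; constructor <;> linarith [hb'.1, hb'.2])
    have e1 : f p 0 + (f p t - f p 0) = f p t := by ring
    have e2 : f p 0 + (f p (-t) - f p 0) = f p (-t) := by ring
    rwa [e1, e2] at key
  · intro p hp0 hp1 β' C' δ' hδ' hbb
    obtain ⟨β, γ, h1, h2⟩ := hE p hp0 hp1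
    have hp1' : 1 + p ≠ 0 := fun h => hp1 (by linarith)
    have key := hh2 (f p) Z (J / (4 * p * (1 + p))) β _ _ (hpos p) h1 h2 (by ring) β' C' δ' hδ' hbb
    have e : Z * (J / (4 * p * (1 + p))) / f p 0 ^ 2 = Z * J / (4 * p * (1 + p) * f p 0 ^ 2) := by
      have := (hpos p 0).ne'
      field_simp
    rwa [e] at key

end Pool.Agent.J4H22.PZ
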