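import Pool.Agent.J4H12.PZ.Stm

/-!
# Project PZ: (NEAR)
-/

set_option autoImplicit false

open Filter Topology Set
open scoped Pointwise RealInnerProductSpace

namespace Pool.Agent.J4H22.PZ

open Pool.Agent.H638.IB Pool.Agent.J4H12.PZ

lemma S_nonneg {n k : ℕ} (a : Fin k → E n) (m : ℕ) (x : E n) : 0 ≤ ∑ i, ⟪a i, x⟫ ^ (2 * m) :=
  Finset.sum_nonneg fun i _ => (Even.pow_nonneg (even_two_mul m) _)

lemma Nf_smul {n k : ℕ} (a : Fin k → E n) (m : ℕ) (hm : 1 ≤ m) (δ c : ℝ) (x : E n) :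
    Nf a m δ (c • x) = c ^ 2 * Nf a m δ x := by
  unfold Nf
  have h1 : ∑ i, ⟪a i, c • x⟫ ^ (2 * m) = (c ^ 2) ^ m * ∑ i, ⟪a i, x⟫ ^ (2 * m) := by
    rw [Finset.mul_sum]
    apply Finset.sum_congr rfl
    intro i _
    rw [real_inner_smul_right, mul_pow, pow_mul]
  rw [h1, Real.mul_rpow (by positivity) (S_nonneg a m x),
    Real.pow_rpow_inv_natCast (by positivity) (by omega), norm_smul, mul_pow, Real.norm_eq_abs,
    sq_abs]
  ring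

lemma Nf_lower {n k : ℕ} (a : Fin k → E n) (m : ℕ) (δ : ℝ) (x : E n) :
    δ * ‖x‖ ^ 2 ≤ Nf a m δ x := by
  unfold Nf
  have := Real.rpow_nonneg (S_nonneg a m x) ((m : ℝ)⁻¹)
  linarith

lemma add_rpow {s w r : ℝ} (hs : 0 ≤ s) (hw : 0 ≤ w) (h0 : 0 ≤ r) (h1 : r ≤ 1) :
    (s + w) ^ r ≤ s ^ r + w ^ r := by
  lift s to NNReal using hs
  lift w to NNReal using hw
  exact_mod_cast NNReal.rpow_add_le_add_rpow s w h0 h1

lemma Nf_cons {L k : ℕ} (a : Fin k → E (L + 3)) (m : ℕ) (hm : 1 ≤ m) (δ τ : ℝ) (x : E (L + 3)) :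
    Nf a m δ x ≤ Nf (Fin.cons (τ • e0 L) a : Fin (k + 1) → _) m δ x ∧
    Nf (Fin.cons (τ • e0 L) a : Fin (k + 1) → _) m δ x ≤
      Nf a m δ x + τ ^ 2 * (‖e0 L‖ ^ 2 * ‖x‖ ^ 2) := by
  unfold Nf
  rw [Fin.sum_univ_succ]
  simp only [Fin.cons_zero, Fin.cons_succ]
  have hS := S_nonneg a m x
  have hw : 0 ≤ ⟪τ • e0 L, x⟫ ^ (2 * m) := Even.pow_nonneg (even_two_mul m) _
  have hr : 0 ≤ (m : ℝ)⁻¹ := by positivity
  have hr1 : (m : ℝ)⁻¹ ≤ 1 := inv_le_one_of_one_le₀ (by exact_mod_cast hm)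
  constructor
  · have := Real.rpow_le_rpow hS (le_add_of_nonneg_left hw) hr
    linarith
  · have h1 := add_rpow hw hS hr hr1
    have h2 : (⟪τ • e0 L, x⟫ ^ (2 * m)) ^ ((m : ℝ)⁻¹) = ⟪τ • e0 L, x⟫ ^ 2 := by
      rw [pow_mul, Real.pow_rpow_inv_natCast (by positivity) (by omega)]
    have h3 : ⟪τ • e0 L, x⟫ ^ 2 ≤ τ ^ 2 * (‖e0 L‖ ^ 2 * ‖x‖ ^ 2) := by
      rw [real_inner_smul_left, mul_pow, ← mul_pow ‖e0 L‖]
      apply mul_le_mul_of_nonneg_left _ (sq_nonneg τ)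
      rw [← sq_abs]
      exact pow_le_pow_left₀ (abs_nonneg _) (abs_real_inner_le_norm _ _) 2
    rw [h2] at h1
    linarith

lemma G_nonneg {L : ℕ} (x : E (L + 3)) : 0 ≤ G x := le_max_left _ _

lemma coord {n : ℕ} (x : E n) (i : Fin n) : |x i| ≤ ‖x‖ := by
  have := PiLp.norm_apply_le x i
  rwa [Real.norm_eq_abs] at this

lemma G_le {L : ℕ} (x : E (L + 3)) : G x ≤ ‖x‖ ^ 2 := by
  have h : ∀ i j : Fin (L + 3), x i * x j ≤ ‖x‖ ^ 2 := by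
    intro i j
    calc x i * x j ≤ |x i * x j| := le_abs_self _
      _ = |x i| * |x j| := abs_mul _ _
      _ ≤ ‖x‖ * ‖x‖ := mul_le_mul (coord x i) (coord x j) (abs_nonneg _) (norm_nonneg _)
      _ = ‖x‖ ^ 2 := (sq _).symm
  exact max_le (by positivity) (max_le (h _ _) (h _ _))

theorem t_NEAR : S_NEAR := by
  intro L k a m δ hm hδ _ha ε hε hε1
  set c : ℝ := ‖e0 L‖ ^ 2 with hc
  have hc0 : 0 ≤ c := by positivity
  refine ⟨min δ (min 1 (ε * δ / (c + 1))), lt_min hδ (lt_min one_pos (by positivity)),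
    min_le_left _ _, ?_⟩
  intro τ κ hτ0 hτ hκ0 hκ
  have hτ1 : τ ≤ 1 := hτ.trans ((min_le_right _ _).trans (min_le_left _ _))
  have hτ2 : τ ≤ ε * δ / (c + 1) := hτ.trans ((min_le_right _ _).trans (min_le_right _ _))
  have hκ2 : κ ≤ ε * δ / (c + 1) := hκ.trans ((min_le_right _ _).trans (min_le_right _ _))
  have hq : τ ^ 2 * c + κ ≤ ε * δ := by
    have h1 : τ ^ 2 ≤ ε * δ / (c + 1) := by nlinarith
    have h2 : τ ^ 2 * c ≤ ε * δ / (c + 1) * c := mul_le_mul_of_nonneg_right h1 hc0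
    have h3 : ε * δ / (c + 1) * c + ε * δ / (c + 1) = ε * δ := by
      field_simp
    linarith
  constructor
  · rintro _ ⟨y, hy, rfl⟩
    have hy1 : Nf a m δ y ≤ 1 := hy
    show Nf (Fin.cons (τ • e0 L) a : Fin (k + 1) → _) m δ ((1 - ε) • y) + κ * G ((1 - ε) • y) ≤ 1
    have h1 := (Nf_cons a m hm δ τ ((1 - ε) • y)).2
    have h2 := G_le ((1 - ε) • y)
    have h3 := mul_le_mul_of_nonneg_left h2 hκ0
    have h4 := Nf_lower a m δ y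
    rw [Nf_smul a m hm, ← hc] at h1
    have h5 : ‖(1 - ε) • y‖ ^ 2 = (1 - ε) ^ 2 * ‖y‖ ^ 2 := by
      rw [norm_smul, mul_pow, Real.norm_eq_abs, sq_abs]
    rw [h5] at h1 h3
    have h6 : (τ ^ 2 * c + κ) * ‖y‖ ^ 2 ≤ ε * Nf a m δ y := by
      calc (τ ^ 2 * c + κ) * ‖y‖ ^ 2 ≤ (ε * δ) * ‖y‖ ^ 2 :=
            mul_le_mul_of_nonneg_right hq (by positivity)
        _ = ε * (δ * ‖y‖ ^ 2) := by ring
        _ ≤ ε * Nf a m δ y := mul_le_mul_of_nonneg_left h4 hε.le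
    have h7 : 0 ≤ Nf a m δ y := le_trans (by positivity) h4
    calc Nf (Fin.cons (τ • e0 L) a : Fin (k + 1) → _) m δ ((1 - ε) • y) + κ * G ((1 - ε) • y)
        ≤ (1 - ε) ^ 2 * (Nf a m δ y + (τ ^ 2 * c + κ) * ‖y‖ ^ 2) := by
          nlinarith [h1, h3]
      _ ≤ (1 - ε) ^ 2 * (Nf a m δ y + ε * Nf a m δ y) :=
          mul_le_mul_of_nonneg_left (by linarith) (by positivity)
      _ = ((1 - ε) ^ 2 * (1 + ε)) * Nf a m δ y := by ring
      _ ≤ 1 * 1 := by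
          apply mul_le_mul _ hy1 h7 one_pos.le
          nlinarith [mul_pos hε hε, mul_pos (mul_pos hε hε) hε, mul_nonneg hε.le (sub_nonneg.2 hε1.le)]
      _ = 1 := one_mul 1
  · intro x hx
    have hx1 : Nf (Fin.cons (τ • e0 L) a : Fin (k + 1) → _) m δ x + κ * G x ≤ 1 := hx
    have h1 := (Nf_cons a m hm δ τ x).1
    have h2 := mul_nonneg hκ0 (G_nonneg x)
    have h3 : Nf a m δ x ≤ 1 := by linarith
    have hpos : (0 : ℝ) < 1 + ε := by linarith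
    rw [Set.mem_smul_set_iff_inv_smul_mem₀ hpos.ne']
    show Nf a m δ ((1 + ε)⁻¹ • x) ≤ 1
    rw [Nf_smul a m hm]
    have h4 : 0 ≤ Nf a m δ x := le_trans (by positivity) (Nf_lower a m δ x)
    have h5 : (1 + ε)⁻¹ ≤ 1 := inv_le_one_of_one_le₀ (by linarith)
    have h6 : ((1 + ε)⁻¹) ^ 2 ≤ 1 := pow_le_one₀ (by positivity) h5
    calc ((1 + ε)⁻¹) ^ 2 * Nf a m δ x ≤ 1 * 1 := mul_le_mul h6 h3 h4 one_pos.le
      _ = 1 := one_mul 1

end Pool.Agent.J4H22.PZ
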